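import Pool.Agent.Q18.Near

/-!
MP_ecc06a_al, Q1: in the achievement game on the affine group of the Dickson nearfield of order 64
(a group of order 4032) the structure class of the empty position is odd with deficiency two, but
it has no even option with deficiency one.
-/

namespace Pool.Agent.Results.MP_ecc06a_al.NoEvenOption

variable {G : Type} [Group G]

/-- `⌈P⌉`: the intersection of all maximal subgroups containing `P` (the whole group if there are
none). -/
def hull (P : Set G) : Subgroup G := sInf {M : Subgroup G | IsCoatom M ∧ P ⊆ (M : Set G)}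

/-- The deficiency of `S`: the least size of a set `Q` with `⟨S ∪ Q⟩ = G`. -/
noncomputable def deficiency (S : Set G) : ℕ :=
  sInf {n | ∃ Q : Finset G, Q.card = n ∧ Subgroup.closure (S ∪ (Q : Set G)) = ⊤}

/-- `I` is the subgroup `⌈P⌉` of some position `P`, so that `X_I` is a structure class. -/
def IsStructure (I : Subgroup G) : Prop := ∃ P : Set G, hull P = I

/-- `X_L` is an option of `X_I`: some nonterminal position `P` (a set that does not generate `G`)
in `X_I` has an option `P ∪ {g}`, `g ∉ P`, in `X_L`. -/
def IsOption (I L : Subgroup G) : Prop :=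
  ∃ P : Set G, Subgroup.closure P ≠ ⊤ ∧ hull P = I ∧ ∃ g : G, g ∉ P ∧ hull (P ∪ {g}) = L

theorem subset_hull (P : Set G) : P ⊆ (hull P : Set G) := by
  intro x hx
  rw [SetLike.mem_coe, hull, Subgroup.mem_sInf]
  intro M hM
  exact hM.2 hx

theorem hull_le {P : Set G} {M : Subgroup G} (hM : IsCoatom M) (hP : P ⊆ (M : Set G)) :
    hull P ≤ M := sInf_le ⟨hM, hP⟩

theorem closure_hull [Finite G] {P Q : Set G}
    (h : Subgroup.closure ((hull P : Set G) ∪ Q) = ⊤) : Subgroup.closure (P ∪ Q) = ⊤ := by
  rcases eq_top_or_exists_le_coatom (Subgroup.closure (P ∪ Q)) with h1 | ⟨M, hM, hle⟩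
  · exact h1
  · exfalso
    apply hM.1
    rw [eq_top_iff, ← h, Subgroup.closure_le]
    rw [Subgroup.closure_le] at hle
    rintro x (hx | hx)
    · exact hull_le hM (fun y hy => hle (Or.inl hy)) hx
    · exact hle (Or.inr hx)

theorem deficiency_spec [Finite G] (S : Set G) :
    ∃ Q : Finset G, Q.card = deficiency S ∧ Subgroup.closure (S ∪ (Q : Set G)) = ⊤ := by
  classical
  have : Fintype G := Fintype.ofFinite G
  have hne : {n | ∃ Q : Finset G, Q.card = n ∧
      Subgroup.closure (S ∪ (Q : Set G)) = ⊤}.Nonempty := by
    refine ⟨_, Finset.univ, rfl, ?_⟩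
    rw [Finset.coe_univ, Set.union_univ, Subgroup.closure_univ]
  exact Nat.sInf_mem hne

open Q18.Near

instance : Finite Aff := inferInstance

/-- `G` has even order, `X_I` is an odd structure class with deficiency `k + 1`, but no option of
`X_I` is even with deficiency `k`. -/
theorem result : ∃ (G : Type) (_ : Group G) (_ : Finite G) (k : ℕ) (I : Subgroup G),
    Even (Nat.card G) ∧ IsStructure I ∧ Odd (Nat.card I) ∧ deficiency (I : Set G) = k + 1 ∧
    ∀ L : Subgroup G, IsOption I L → ¬ (Even (Nat.card L) ∧ deficiency (L : Set G) = k) := by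
  classical
  have hodd : ∀ (L : Subgroup Aff) (a : K), L ≤ stab a → Odd (Nat.card L) := by
    intro L a hL
    have h1 := Subgroup.card_dvd_of_le hL
    rw [card_stab] at h1
    exact Odd.of_dvd_nat (by decide) h1
  refine ⟨Aff, inferInstance, inferInstance, 1, hull ∅, even_card, ⟨∅, rfl⟩, ?_, ?_, ?_⟩
  · exact hodd _ 0 (hull_le (stab_coatom 0) (Set.empty_subset _))
  · -- deficiency two
    obtain ⟨Q, hQ, hgen⟩ := deficiency_spec ((hull ∅ : Subgroup Aff) : Set Aff)
    have hgen' := closure_hull hgen
    rw [Set.empty_union] at hgen'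
    have hle : deficiency ((hull ∅ : Subgroup Aff) : Set Aff) ≤ 2 := by
      have h1 : deficiency ((hull ∅ : Subgroup Aff) : Set Aff) ≤ ({hA 1, z} : Finset Aff).card := by
        apply Nat.sInf_le
        refine ⟨{hA 1, z}, rfl, ?_⟩
        rw [eq_top_iff, ← gen2]
        apply Subgroup.closure_mono
        rw [Finset.coe_insert, Finset.coe_singleton]
        exact Set.subset_union_right
      exact h1.trans Finset.card_le_two
    have hge : ¬ Q.card ≤ 1 := by
      intro h
      rw [Finset.card_le_one_iff_subset_singleton] at h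
      obtain ⟨q, hq⟩ := h
      apply not_gen_tr 0 q
      rw [eq_top_iff, ← hgen']
      apply Subgroup.closure_mono
      intro x hx
      have := hq hx
      rw [Finset.mem_singleton] at this
      right
      exact this
    omega
  · rintro L ⟨P, -, hP, g, -, hL⟩ ⟨heven, hdef⟩
    have hPM : ∀ M : Subgroup Aff, IsCoatom M → P ⊆ (M : Set Aff) := by
      intro M hM x hx
      have h1 : x ∈ hull P := subset_hull P hx
      rw [hP] at h1
      exact hull_le hM (Set.empty_subset _) h1
    rcases fix_or_tr g with ⟨a, ha⟩ | ⟨w, rfl⟩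
    · have hLa : L ≤ stab a := by
        rw [← hL]
        apply hull_le (stab_coatom a)
        rintro x (hx | hx)
        · exact hPM _ (stab_coatom a) hx
        · rw [Set.mem_singleton_iff] at hx
          rw [hx]
          exact ha
      exact (Nat.not_even_iff_odd.2 (hodd L a hLa)) heven
    · obtain ⟨Q, hQ, hgen⟩ := deficiency_spec (L : Set Aff)
      rw [hdef, Finset.card_eq_one] at hQ
      obtain ⟨q, rfl⟩ := hQ
      rw [← hL] at hgen
      have hgen' := closure_hull hgen
      rcases eq_top_or_exists_le_coatom (Subgroup.closure {tr w, q}) with h1 | ⟨M, hM, hle⟩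
      · exact not_gen_tr w q h1
      · apply hM.1
        rw [eq_top_iff, ← hgen', Subgroup.closure_le]
        rw [Subgroup.closure_le] at hle
        rintro x ((hx | hx) | hx)
        · exact hPM M hM hx
        · exact hle (Or.inl hx)
        · rw [Finset.coe_singleton] at hx
          exact hle (Or.inr hx)

end Pool.Agent.Results.MP_ecc06a_al.NoEvenOption
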